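import Pool.Agent.H88.B2.Targets

/-!
# Row L2C of bpd_modules (MP_ee74d2_an): local constancy of the part of the cap of radius `1/w`
-/

set_option autoImplicit false

open MeasureTheory Set
open scoped ENNReal NNReal RealInnerProductSpace

namespace Pool.Agent.H63.B2.L2C

open Pool.Agent.H83.G Pool.Agent.H88.B2

private theorem pow_neg_le (a b c : ℝ≥0∞) (e : ℝ) (he : 0 ≤ e) (ha : a ≠ 0) (ha' : a ≠ ⊤)
    (hb : b ≠ 0) (hb' : b ≠ ⊤) (h : a ≤ c * b) : b ^ (-e) ≤ c ^ e * a ^ (-e) := by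
  have h1 : a ^ e ≤ c ^ e * b ^ e := by
    rw [← ENNReal.mul_rpow_of_nonneg _ _ he]
    exact ENNReal.rpow_le_rpow h he
  have ha1 : a ^ e * a ^ (-e) = 1 := by
    rw [← ENNReal.rpow_add _ _ ha ha', add_neg_cancel, ENNReal.rpow_zero]
  have hb1 : b ^ e * b ^ (-e) = 1 := by
    rw [← ENNReal.rpow_add _ _ hb hb', add_neg_cancel, ENNReal.rpow_zero]
  calc b ^ (-e) = b ^ (-e) * (a ^ e * a ^ (-e)) := by rw [ha1, mul_one]
    _ ≤ b ^ (-e) * ((c ^ e * b ^ e) * a ^ (-e)) :=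
        mul_le_mul' le_rfl (mul_le_mul' h1 le_rfl)
    _ = (b ^ e * b ^ (-e)) * (c ^ e * a ^ (-e)) := by ring
    _ = _ := by rw [hb1, one_mul]

private theorem rpow_le_sq (b : ℝ≥0∞) (e : ℝ) (hb : 1 ≤ b) (he : e ≤ 2) : b ^ e ≤ b ^ 2 := by
  rw [← ENNReal.rpow_two]
  exact ENNReal.rpow_le_rpow_of_exponent_le hb he

private theorem Rg_mono {m : ℕ} {κ κ' c : ℝ} (hκ : κ ≤ κ') (hκ1 : κ ≤ 1) (hc : 0 ≤ c) {ζ : Z m}
    (h : ζ ∈ Rg m κ c) : ζ ∈ Rg m κ' c := by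
  obtain ⟨h1, h2, h3, h4⟩ := h
  have h0 : 0 ≤ ζ.1 := by linarith
  refine ⟨by linarith, by linarith, h3.trans ?_, h4.trans ?_⟩
  · exact mul_le_mul_of_nonneg_right (by linarith) h0
  · exact mul_le_mul_of_nonneg_right (by linarith) hc

private theorem F_TC {m : ℕ} (I : Finset (Fin m → ℤ)) (G' : (Fin m → ℤ) → Z m → ℂ)
    (h : ∀ k, TC (G' k)) : TC (fun ζ => ∑ k ∈ I, G' k ζ) := by
  refine ⟨ContDiff.sum fun k _ => (h k).1, ?_⟩
  classical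
  induction I using Finset.induction_on with
  | empty =>
    simp only [Finset.sum_empty]
    exact HasCompactSupport.zero
  | insert a s has ih =>
    simp_rw [Finset.sum_insert has]
    exact (h a).2.add ih

private theorem F_TF {m : ℕ} (I : Finset (Fin m → ℤ)) (G' : (Fin m → ℤ) → Z m → ℂ)
    (h : ∀ k, TC (G' k)) (z : Z m) :
    TF (fun ζ => ∑ k ∈ I, G' k ζ) z = ∑ k ∈ I, TF (G' k) z := by
  unfold TF
  rw [← integral_finsetSum]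
  · refine integral_congr_ae (Filter.Eventually.of_forall fun ζ => ?_)
    simp only [Finset.mul_sum]
  · intro k _
    have h1 : Continuous (fun ζ : Z m => e (ph z ζ) * G' k ζ) := by
      have h2 : Continuous (fun ζ : Z m => e (ph z ζ)) := by
        unfold e ph
        fun_prop
      exact h2.mul (h k).1.continuous
    exact h1.integrable_of_hasCompactSupport
      (HasCompactSupport.mul_left (f := fun ζ : Z m => e (ph z ζ)) (h k).2)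

private theorem wt_pos {m : ℕ} (N : ℕ) (x : Z m) : 0 < wt N x := by unfold wt; positivity

private theorem wt_cont {m : ℕ} (N : ℕ) : Continuous (wt N : Z m → ℝ) := by
  unfold wt
  refine Continuous.inv₀ (by fun_prop) fun x => ?_
  positivity

/-- the support after the rescaling -/
private theorem sup_bd (hLOA : T_LOA) {m : ℕ} (R w : ℝ) (η : E m) (hR : 1 ≤ R) (hw : 1 ≤ w)
    (hwR : w ≤ Real.sqrt R) (ζ : Z m) (h1 : Ld η w⁻¹ ζ ∈ Rg m (1 / 2) R⁻¹)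
    (h2 : ‖(Ld η w⁻¹ ζ).1⁻¹ • (Ld η w⁻¹ ζ).2.1 - η‖ ≤ 3 * w⁻¹) : ‖ζ‖ ≤ 50 := by
  obtain ⟨q1, q2, q3, q4⟩ := h1
  have hR0 : 0 < R := by linarith
  have hw0 : 0 < w := by linarith
  have hwi : 0 < w⁻¹ := inv_pos.2 hw0
  have e1 : (Ld η w⁻¹ ζ).1 = ζ.1 := rfl
  rw [e1] at q1 q2
  have hζ0 : 0 < ζ.1 := by linarith
  obtain ⟨-, l2, l3⟩ := (hLOA m).2.2.2.2.2 η w⁻¹ ζ hζ0.ne'
  rw [l2, norm_smul, norm_smul, Real.norm_eq_abs, Real.norm_eq_abs, abs_of_pos hwi,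
    abs_of_pos (inv_pos.2 hζ0)] at h2
  have h3 : ζ.1⁻¹ * ‖ζ.2.1‖ ≤ 3 := by
    have : w⁻¹ * (ζ.1⁻¹ * ‖ζ.2.1‖) ≤ w⁻¹ * 3 := by linarith
    exact le_of_mul_le_mul_left this hwi
  rw [inv_mul_le_iff₀ hζ0] at h3
  rw [l3, abs_mul, abs_of_pos (by positivity)] at q4
  set T := |ζ.2.2 - ‖ζ.2.1‖ ^ 2 / ζ.1| with hT
  have hww : w ^ 2 ≤ R := by
    have := pow_le_pow_left₀ hw0.le hwR 2
    rwa [Real.sq_sqrt hR0.le] at this
  have h5 : T ≤ 3 / 2 := by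
    have h6 : w⁻¹ ^ 2 * T * w ^ 2 ≤ (1 + 1 / 2) * R⁻¹ * w ^ 2 :=
      mul_le_mul_of_nonneg_right q4 (by positivity)
    have h7 : w⁻¹ ^ 2 * T * w ^ 2 = T := by field_simp
    have h8 : (1 + 1 / 2) * R⁻¹ * w ^ 2 ≤ (1 + 1 / 2) * R⁻¹ * R :=
      mul_le_mul_of_nonneg_left hww (by positivity)
    have h9 : (1 + 1 / 2 : ℝ) * R⁻¹ * R = 3 / 2 := by field_simp; norm_num
    rw [h7] at h6
    linarith
  have h6 : ‖ζ.2.1‖ ^ 2 / ζ.1 ≤ 81 / 2 := by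
    rw [div_le_iff₀ hζ0]
    have h7 : ‖ζ.2.1‖ ^ 2 ≤ (ζ.1 * 3) ^ 2 := pow_le_pow_left₀ (norm_nonneg _) h3 2
    nlinarith
  have h7 : 0 ≤ ‖ζ.2.1‖ ^ 2 / ζ.1 := by positivity
  have h8 := abs_le.1 h5
  rw [Prod.norm_def, Prod.norm_def, max_le_iff, max_le_iff]
  refine ⟨?_, by linarith, ?_⟩
  · rw [Real.norm_eq_abs, abs_of_pos hζ0]
    linarith
  · rw [Real.norm_eq_abs, abs_le]
    constructor <;> linarith [h8.1, h8.2]

/-- local constancy after rescaling -/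
private theorem loc (hSCL : T_SCL) (hLOI : T_LOI) (hLOA : T_LOA) {m N' : ℕ} {P : ℝ} (hP : 1 ≤ P)
    (CL : ℝ≥0) (hCL : ∀ G : Z m → ℂ, TC G → (∀ ζ, G ζ ≠ 0 → ‖ζ‖ ≤ 50) → ∀ z,
      ‖TF G z‖ₑ ^ P ≤ CL * ∫⁻ z', ‖TF G z'‖ₑ ^ P * ENNReal.ofReal (wt N' (z - z')))
    (w : ℝ) (η : E m) (hw : 1 ≤ w) (H : Z m → ℂ) (hH : TC H)
    (hs : ∀ ζ, H (Ld η w⁻¹ ζ) ≠ 0 → ‖ζ‖ ≤ 50) (z : Z m) :
    ‖TF H z‖ₑ ^ P ≤ CL * ENNReal.ofReal (w⁻¹ ^ (m + 2)) *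
      ∫⁻ u, ‖TF H u‖ₑ ^ P * ENNReal.ofReal (wt N' (Lo η w⁻¹ (z - u))) := by
  have hw0 : 0 < w := by linarith
  have hwi : 0 < w⁻¹ := inv_pos.2 hw0
  obtain ⟨hT, hS⟩ := hSCL m η w⁻¹ H hwi hH
  have h1 := hCL _ hT hs (Lo η w⁻¹ z)
  set c : ℝ≥0∞ := ‖((w⁻¹ ^ (m + 2) : ℝ) : ℂ)‖ₑ with hc
  have hP0 : 0 ≤ P := by linarith
  have hcP : c ^ P ≠ ⊤ := ENNReal.rpow_ne_top_of_nonneg hP0 (by rw [hc]; exact enorm_ne_top)
  have h2 : ∀ z, ‖TF H z‖ₑ ^ P =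
      c ^ P * ‖TF (fun ζ => H (Ld η w⁻¹ ζ)) (Lo η w⁻¹ z)‖ₑ ^ P := by
    intro z
    rw [hS z, enorm_mul, ENNReal.mul_rpow_of_nonneg _ _ hP0]
  have h3 := (hLOI m η w⁻¹ hwi).1 (fun y => c ^ P * ‖TF (fun ζ => H (Ld η w⁻¹ ζ)) y‖ₑ ^ P *
    ENNReal.ofReal (wt N' (Lo η w⁻¹ z - y)))
  have h4 : ENNReal.ofReal (w⁻¹ ^ (m + 2)) * ENNReal.ofReal ((w⁻¹)⁻¹ ^ (m + 2)) = 1 := by
    rw [← ENNReal.ofReal_mul (by positivity), ← mul_pow, mul_inv_cancel₀ hwi.ne', one_pow,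
      ENNReal.ofReal_one]
  have h5 : ∫⁻ u, ‖TF H u‖ₑ ^ P * ENNReal.ofReal (wt N' (Lo η w⁻¹ (z - u))) =
      ENNReal.ofReal ((w⁻¹)⁻¹ ^ (m + 2)) *
      ∫⁻ y, c ^ P * ‖TF (fun ζ => H (Ld η w⁻¹ ζ)) y‖ₑ ^ P *
        ENNReal.ofReal (wt N' (Lo η w⁻¹ z - y)) := by
    rw [← h3]
    refine lintegral_congr fun u => ?_
    rw [h2 u, ((hLOA m).1 η w⁻¹ z u).2.1]
  rw [h5, h2 z]
  have h6 : ∫⁻ y, c ^ P * ‖TF (fun ζ => H (Ld η w⁻¹ ζ)) y‖ₑ ^ P *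
        ENNReal.ofReal (wt N' (Lo η w⁻¹ z - y)) =
      c ^ P * ∫⁻ y, ‖TF (fun ζ => H (Ld η w⁻¹ ζ)) y‖ₑ ^ P *
        ENNReal.ofReal (wt N' (Lo η w⁻¹ z - y)) := by
    rw [← lintegral_const_mul' _ _ hcP]
    refine lintegral_congr fun u => ?_
    rw [mul_assoc]
  rw [h6]
  calc c ^ P * ‖TF (fun ζ => H (Ld η w⁻¹ ζ)) (Lo η w⁻¹ z)‖ₑ ^ P
      ≤ c ^ P * (CL * ∫⁻ z', ‖TF (fun ζ => H (Ld η w⁻¹ ζ)) z'‖ₑ ^ P *
        ENNReal.ofReal (wt N' (Lo η w⁻¹ z - z'))) := mul_le_mul' le_rfl h1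
    _ = (ENNReal.ofReal (w⁻¹ ^ (m + 2)) * ENNReal.ofReal ((w⁻¹)⁻¹ ^ (m + 2))) *
        (c ^ P * (CL * ∫⁻ z', ‖TF (fun ζ => H (Ld η w⁻¹ ζ)) z'‖ₑ ^ P *
        ENNReal.ofReal (wt N' (Lo η w⁻¹ z - z')))) := by rw [h4, one_mul]
    _ = _ := by ring

theorem pf_L2C (hPKT : T_PKT) (hLCN : T_LCN) (hSCL : T_SCL) (hLOI : T_LOI) (hLOA : T_LOA)
    (hLOB : T_LOB) (hWWS : T_WWS) (hSCH : T_SCH) (hLWX : T_LWX) : T_L2C := by
  intro m N N₂ β Ψ ψ δ P hm hβ hΨ hδ hδ4 hP2 hP6 hN hN₂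
  obtain ⟨Ξ, χ, hLow⟩ := hLWX m
  obtain ⟨CP, hCP1, hPK⟩ := hPKT m β Ψ Ξ ψ χ hβ hΨ hLow
  obtain ⟨CW, hCW1, -, -, hW3, -⟩ := hWWS m N
  obtain ⟨CL, hCL⟩ := hLCN m (N₂ + 2 * N) 50 P (by linarith)
  have hCL0 : (0 : ℝ) ≤ CL := CL.2
  have hCC : 0 ≤ (CL : ℝ) * CW ^ 2 := by positivity
  refine ⟨8 * CP + (CL : ℝ) * CW ^ 2, by linarith, ?_⟩
  intro κ R w η G S ω hκ0 hκ hR hCR hG hsupp hw hwR hη hSne hS hω
  have hR0 : 0 < R := by linarith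
  have hw0 : 0 < w := by linarith
  have hwi : 0 < w⁻¹ := inv_pos.2 hw0
  have hRi : (0 : ℝ) ≤ R⁻¹ := (inv_pos.2 hR0).le
  have hsR : sR R ≤ w⁻¹ := by
    unfold sR
    exact inv_anti₀ hw0 hwR
  have hκ' : κ + CP * R ^ (-δ) ≤ 1 / 2 := by
    have h1 : 8 * CP ≤ R ^ δ := by linarith
    have h2 : CP * R ^ (-δ) ≤ 1 / 8 := by
      rw [Real.rpow_neg hR0.le, ← div_eq_mul_inv, div_le_iff₀ (Real.rpow_pos_of_pos hR0 _)]
      linarith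
    linarith
  obtain ⟨G', hG'1, hG'2, hG'3, -⟩ := (hPK κ R R δ G S 0 hκ0 hκ hδ hδ4 hR (by linarith) hG
    hsupp).1
  set I := S.image Prod.fst with hI
  set H : Z m → ℂ := fun ζ => ∑ k ∈ I, G' k ζ with hH
  have hHTC : TC H := F_TC I G' hG'1
  have hF : ∀ z, ∑ W ∈ S, Fp β ψ R δ G W z = TF H z := by
    intro z
    rw [hH, F_TF I G' hG'1 z]
    rw [Finset.sum_congr rfl fun k _ => hG'3 k z]
    exact (Finset.sum_fiberwise_of_maps_to (fun W hW => Finset.mem_image_of_mem _ hW) _).symm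
  have hHs : ∀ ζ, H (Ld η w⁻¹ ζ) ≠ 0 → ‖ζ‖ ≤ 50 := by
    intro ζ hζ
    obtain ⟨k, hk, hk2⟩ := Finset.exists_ne_zero_of_sum_ne_zero hζ
    obtain ⟨h1, h2⟩ := hG'2 k _ hk2
    rw [hI, Finset.mem_image] at hk
    obtain ⟨W, hW, rfl⟩ := hk
    refine sup_bd hLOA R w η hR hw hwR ζ (Rg_mono hκ' (by linarith) hRi h1) ?_
    have h3 := (hS W hW).2
    have h4 := norm_sub_le_norm_sub_add_norm_sub
      ((Ld η w⁻¹ ζ).1⁻¹ • (Ld η w⁻¹ ζ).2.1) (ctr (sR R) W.1) η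
    linarith
  have hloc := loc hSCL hLOI hLOA (by linarith : (1 : ℝ) ≤ P) CL hCL w η hw H hHTC hHs
  have hTFc : Continuous (TF H) := (hSCH m H hHTC).1
  have hMSc : Continuous (fun z : Z m => MS N R δ S z) := by
    unfold MS
    refine continuous_finsetSum _ fun W _ => ?_
    have hsR0 : 0 < sR R := by
      unfold sR
      exact inv_pos.2 (Real.sqrt_pos.2 hR0)
    have h2 : Continuous (Lo (ctr (sR R) W.1) (sR R) : Z m → Z m) :=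
      (hLOI m _ _ hsR0).2.2.2.2.1.continuous
    have h3 : Continuous (fun z : Z m => fc R δ W.1 z - zc W.2) := by
      unfold fc
      fun_prop
    exact (wt_cont N).comp h3
  have hMSp : ∀ z, 0 < MS N R δ S z := fun z =>
    Finset.sum_pos (fun _ _ => wt_pos N _) hSne
  have hMM : ∀ z u, ENNReal.ofReal (MS N R δ S z) ^ (1 - P / 2) ≤
      ENNReal.ofReal (CW ^ 2 * (1 + ‖Lo η w⁻¹ (z - u)‖) ^ (2 * N)) *
        ENNReal.ofReal (MS N R δ S u) ^ (1 - P / 2) := by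
    intro z u
    have h1 : MS N R δ S u ≤ CW * (1 + ‖Lo η w⁻¹ (z - u)‖) ^ N * MS N R δ S z := by
      unfold MS
      rw [Finset.mul_sum]
      refine Finset.sum_le_sum fun W hW => ?_
      have h2 := hW3 R δ w η W u z hR hδ.le hw hwR (by linarith [(hS W hW).2])
      have h3 : ‖Lo η w⁻¹ (u - z)‖ = ‖Lo η w⁻¹ (z - u)‖ := by
        have e1 : Lo η w⁻¹ (u - z) = Lo η w⁻¹ u - Lo η w⁻¹ z := ((hLOA m).1 η w⁻¹ u z).2.1
        have e2 : Lo η w⁻¹ (z - u) = Lo η w⁻¹ z - Lo η w⁻¹ u := ((hLOA m).1 η w⁻¹ z u).2.1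
        rw [e1, e2, norm_sub_rev]
      rw [h3] at h2
      exact h2
    set c : ℝ≥0∞ := ENNReal.ofReal (CW * (1 + ‖Lo η w⁻¹ (z - u)‖) ^ N) with hc
    have h2 : ENNReal.ofReal (MS N R δ S u) ≤ c * ENNReal.ofReal (MS N R δ S z) := by
      rw [hc, ← ENNReal.ofReal_mul (by positivity)]
      exact ENNReal.ofReal_le_ofReal h1
    have h3 := pow_neg_le _ _ c (P / 2 - 1) (by linarith)
      (ENNReal.ofReal_pos.2 (hMSp u)).ne' ENNReal.ofReal_ne_top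
      (ENNReal.ofReal_pos.2 (hMSp z)).ne' ENNReal.ofReal_ne_top h2
    rw [neg_sub] at h3
    refine h3.trans (mul_le_mul' ?_ le_rfl)
    have hc1 : 1 ≤ c := by
      rw [hc, ENNReal.one_le_ofReal]
      have h6 := norm_nonneg (Lo η w⁻¹ (z - u))
      have h5 : 1 ≤ (1 + ‖Lo η w⁻¹ (z - u)‖) ^ N := one_le_pow₀ (by linarith)
      exact one_le_mul_of_one_le_of_one_le hCW1 h5
    refine (rpow_le_sq c _ hc1 (by linarith)).trans (le_of_eq ?_)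
    rw [hc, ← ENNReal.ofReal_pow (by positivity)]
    congr 1
    ring
  simp_rw [hF]
  set M : Z m → ℝ≥0∞ := fun z => ENNReal.ofReal (MS N R δ S z) ^ (1 - P / 2) with hM
  have hMm : Measurable M := (hMSc.measurable.ennreal_ofReal).pow_const _
  have hFm : Measurable (fun u : Z m => ‖TF H u‖ₑ ^ P) := (hTFc.enorm.measurable).pow_const _
  have hLoc : Continuous (Lo η w⁻¹ : Z m → Z m) := (hLOI m η w⁻¹ hwi).2.2.2.2.1.continuous
  have hK : (CL : ℝ≥0∞) * ENNReal.ofReal (w⁻¹ ^ (m + 2)) ≠ ⊤ :=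
    ENNReal.mul_ne_top ENNReal.coe_ne_top ENNReal.ofReal_ne_top
  have hpt : ∀ z, ‖TF H z‖ₑ ^ P * M z * ω z ≤
      CL * ENNReal.ofReal (w⁻¹ ^ (m + 2)) * ∫⁻ u, ‖TF H u‖ₑ ^ P * M u *
        (ENNReal.ofReal (CW ^ 2) * (ω z * ENNReal.ofReal (wt N₂ (Lo η w⁻¹ (z - u))))) := by
    intro z
    calc ‖TF H z‖ₑ ^ P * M z * ω z
        ≤ (CL * ENNReal.ofReal (w⁻¹ ^ (m + 2)) * ∫⁻ u, ‖TF H u‖ₑ ^ P *
          ENNReal.ofReal (wt (N₂ + 2 * N) (Lo η w⁻¹ (z - u)))) * M z * ω z :=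
          mul_le_mul' (mul_le_mul' (hloc z) le_rfl) le_rfl
      _ = CL * ENNReal.ofReal (w⁻¹ ^ (m + 2)) * ((∫⁻ u, ‖TF H u‖ₑ ^ P *
          ENNReal.ofReal (wt (N₂ + 2 * N) (Lo η w⁻¹ (z - u)))) * (M z * ω z)) := by ring
      _ ≤ _ := by
          refine mul_le_mul' le_rfl ?_
          rw [← lintegral_mul_const]
          · refine lintegral_mono fun u => ?_
            have h1 : ENNReal.ofReal (wt (N₂ + 2 * N) (Lo η w⁻¹ (z - u))) *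
                ENNReal.ofReal (CW ^ 2 * (1 + ‖Lo η w⁻¹ (z - u)‖) ^ (2 * N)) =
                ENNReal.ofReal (CW ^ 2) * ENNReal.ofReal (wt N₂ (Lo η w⁻¹ (z - u))) := by
              rw [← ENNReal.ofReal_mul (wt_pos _ _).le, ← ENNReal.ofReal_mul (by positivity)]
              congr 1
              unfold wt
              rw [pow_add]
              have h9 : (0 : ℝ) < 1 + ‖Lo η w⁻¹ (z - u)‖ := by positivity
              field_simp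
            calc ‖TF H u‖ₑ ^ P * ENNReal.ofReal (wt (N₂ + 2 * N) (Lo η w⁻¹ (z - u))) *
                  (M z * ω z)
                ≤ ‖TF H u‖ₑ ^ P * ENNReal.ofReal (wt (N₂ + 2 * N) (Lo η w⁻¹ (z - u))) *
                  ((ENNReal.ofReal (CW ^ 2 * (1 + ‖Lo η w⁻¹ (z - u)‖) ^ (2 * N)) * M u) *
                    ω z) := mul_le_mul' le_rfl (mul_le_mul' (hMM z u) le_rfl)
              _ = ‖TF H u‖ₑ ^ P * M u * ((ENNReal.ofReal (wt (N₂ + 2 * N)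
                  (Lo η w⁻¹ (z - u))) *
                  ENNReal.ofReal (CW ^ 2 * (1 + ‖Lo η w⁻¹ (z - u)‖) ^ (2 * N))) * ω z) := by
                  ring
              _ = _ := by rw [h1]; ring
          · refine hFm.mul ?_
            refine Measurable.ennreal_ofReal ?_
            exact ((wt_cont _).comp (hLoc.comp (by fun_prop))).measurable
  refine (lintegral_mono hpt).trans ?_
  rw [lintegral_const_mul' _ _ hK]
  have hswap : ∫⁻ z, ∫⁻ u, ‖TF H u‖ₑ ^ P * M u *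
        (ENNReal.ofReal (CW ^ 2) * (ω z * ENNReal.ofReal (wt N₂ (Lo η w⁻¹ (z - u))))) =
      ∫⁻ u, ∫⁻ z, ‖TF H u‖ₑ ^ P * M u *
        (ENNReal.ofReal (CW ^ 2) * (ω z * ENNReal.ofReal (wt N₂ (Lo η w⁻¹ (z - u))))) := by
    refine lintegral_lintegral_swap ?_
    refine Measurable.aemeasurable ?_
    refine ((hFm.comp measurable_snd).mul (hMm.comp measurable_snd)).mul ?_
    refine Measurable.const_mul ?_ _
    refine (hω.comp measurable_fst).mul ?_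
    refine Measurable.ennreal_ofReal ?_
    exact ((wt_cont _).comp (hLoc.comp (by fun_prop))).measurable
  rw [hswap]
  have hin : ∀ u, ∫⁻ z, ‖TF H u‖ₑ ^ P * M u *
        (ENNReal.ofReal (CW ^ 2) * (ω z * ENNReal.ofReal (wt N₂ (Lo η w⁻¹ (z - u))))) =
      ENNReal.ofReal (CW ^ 2) * (‖TF H u‖ₑ ^ P * M u *
        ∫⁻ y, ω y * ENNReal.ofReal (wt N₂ (Lo η w⁻¹ (y - u)))) := by
    intro u
    rw [lintegral_const_mul, lintegral_const_mul]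
    · ring
    · refine hω.mul ?_
      refine Measurable.ennreal_ofReal ?_
      exact ((wt_cont _).comp (hLoc.comp (by fun_prop))).measurable
    · refine Measurable.const_mul ?_ _
      refine hω.mul ?_
      refine Measurable.ennreal_ofReal ?_
      exact ((wt_cont _).comp (hLoc.comp (by fun_prop))).measurable
  simp_rw [hin]
  rw [lintegral_const_mul' _ _ ENNReal.ofReal_ne_top, ← mul_assoc]
  refine mul_le_mul' ?_ le_rfl
  rw [← ENNReal.ofReal_coe_nnreal, ← ENNReal.ofReal_mul hCL0, ← ENNReal.ofReal_mul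
    (by positivity)]
  refine ENNReal.ofReal_le_ofReal ?_
  have h1 : (0 : ℝ) ≤ w⁻¹ ^ (m + 2) := by positivity
  have h2 : (CL : ℝ) * w⁻¹ ^ (m + 2) * CW ^ 2 = ((CL : ℝ) * CW ^ 2) * w⁻¹ ^ (m + 2) := by ring
  rw [h2]
  exact mul_le_mul_of_nonneg_right (by linarith) h1

end Pool.Agent.H63.B2.L2C
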